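import Pool.Agent.Q240.EX.Stm4

set_option autoImplicit false

/-!
# Project EX: statements of the lemma jobs, part 5 (all local norms)

For a measure `w` on the real line let `Nw w f = ∫ |TT f (i x)|² dw(x)`.  The point mass at `0` gives the extremal functions.
-/

open Polynomial Filter Topology Finset MeasureTheory
open Pool.Agent.H24R2.JP (XX)
open Pool.Agent.Q240.CD

namespace Pool.Agent.Q240.EX

/-- the norm attached to a measure on the line -/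
noncomputable def Nw (w : Measure ℝ) (f : ℝ → ℂ) : ℝ := ∫ x : ℝ, ‖Y23.TT f (Complex.I * x)‖ ^ 2 ∂w

/-- `∏ (1 + x² / γ_j²)` -/
noncomputable def Gm (γ : ℕ → ℝ) (x : ℝ) : ℝ := ∏' j, (1 + x ^ 2 / γ j ^ 2)

/-- `f` minimises the quotient of Weil's form and the norm `Nw w` in degree at most `ν` -/
def Mw (w : Measure ℝ) (a : ℝ) (ν : ℕ∞) (f : ℝ → ℂ) : Prop := Y23.G.F.Hn a ν f ∧ 0 < Nw w f ∧
  ∀ g : ℝ → ℂ, Y23.G.F.Hn a ν g → Y23.QQ f * Nw w g ≤ Y23.QQ g * Nw w f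

/-- admissible measures -/
structure Ad (γ : ℕ → ℝ) (w : Measure ℝ) : Prop where
  int : Integrable (fun x : ℝ => (1 + x ^ 2) * Gm γ x ^ 2) w
  pos : 0 < ∫ x : ℝ, ‖GC (fun j => γ j ^ 2) ((x : ℂ) ^ 2)‖ ^ 2 ∂w

/-- **KR**: the kernel bound on the real line, for all `a ≥ 1` and all degrees. Uses `S_K1` and (for `ν = ⊤`) `S_Dn`.
Proof. Let `g j = γ j ^ 2`. Finite `ν = n`: `TT f (I z) = (A(z) + i B(z)) S(z)`, `QQ f = Lp A + Lp B` (as in `S_UZc`; `PM` by `a_posZ`, `a_inty`), `δ ≤ δ₀ = Lam (q0 * q0)`, and for `P = A`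
or `B`, `P = q(x²) + x r(x²)`, `Lp P = Lam (q q) + Lam (X r r)`. `S_K1` has the constant `exp (2 ‖z‖ ∑ 1 / g j)`; here we need the sharper constant
`∏ (1 + ‖z‖ / g j)²`: it is proved by the same argument (`S_Neg1` with `∏' j, (1 + τ / g j) ^ 2` instead of its bound, `S_Kern` for `C = ∏ (...)² / δ₀`). So for `t = x²`:
`|q(t)|² δ₀ ≤ Gm(x)² Lam (q q)` and `|r(t)|² δ₀ ≤ Gm(x)² Lam (r r) ≤ Gm(x)² Lam (X r r) / g 0`. By Cauchy and Schwarz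
`P(x)² δ₀ ≤ (q(t)² (1 + t / g 0) + r(t)² t (1 + g 0 / t)) δ₀ ≤ (1 + t / g 0) Gm(x)² Lp P` (`(u + v)² ≤ (1 + s) u² + (1 + 1/s) v²` with `s = t / g 0`; `t = 0` is clear).
And `|S_{a,n}(x)| ≤ 1` for all real `x`: for `|x| ≤ x_{n+1}` all factors are in `[0, 1]` (or `S_Near`); for `|x| ≥ x_{n+1}` by `S_Far`:
`|S|² ≤ 1 / ((a x)² 4^n)` and `a |x| ≥ π`. For `ν = ⊤`: density (`S_Dn`), the hypothesis on `δ` holds for every finite degree too. -/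
def S_KR : Prop := RHy → ∀ γ : ℕ → ℝ, EN γ → ∀ (a : ℝ) (ν : ℕ∞) (δ : ℝ), 0 < a →
  (∀ g : ℝ → ℂ, Y23.G.F.Hn a ν g → Y23.TT g 0 = 1 → δ ≤ Y23.QQ g) → ∀ f : ℝ → ℂ, Y23.G.F.Hn a ν f → ∀ x : ℝ,
    δ * ‖Y23.TT f (Complex.I * x)‖ ^ 2 ≤ (1 + x ^ 2 / γ 0 ^ 2) * Gm γ x ^ 2 * Y23.QQ f

/-- **Univ**: all local norms lead to the same limit. Uses `S_KR`, `S_UZt`, `S_XtE`, `S_XtP`.
Proof. Let `F0` be extremal (`S_XtE`), `δ = QQ F0 > 0`, `Xr(x) = GC (γ²) (x²)`, `c = ∫ |Xr|² dw > 0`. By `S_KR` `|TT F0 (i x)|² ≤ (1 + x²/γ_0²) Gm²` is dominated by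
an integrable function, and `TT F0 (i x) → Xr(x)` locally uniformly (`S_UZt` for `f = F0`), so `Nw w F0 ≥ c / 2` for `a ≥ A`, `ν ≥ K a²`. Let `f` be as in the
statement, normalised `Nw w f = 1`: `QQ f ≤ QQ F0 / Nw w F0 ≤ 2 δ / c`. By `S_KR` `|TT f (i x)|² ≤ (2 / c) (1 + x²/γ_0²) Gm²`, so the integral of `|TT f (i x)|²` over `|x| > T` is at
most `1/8` for a suitable `T` (independent of `a, ν, f`). By `S_UZt` `|TT f (i x) - TT f 0 Xr(x)|² ≤ η` for `|x| ≤ T`, so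
`1 = Nw w f ≤ 1/8 + 2 |TT f 0|² c + 2 η w([-T, T])`, hence `|TT f 0|² ≥ 1 / (4 c)` if `η` is small (`w([-T,T]) < ∞` by `Ad.int`, as `Gm ≥ 1`). Finally `S_UZt` on `‖z‖ ≤ R`, divided by `TT f 0`. -/
def S_Univ : Prop := RHy → ∀ γ : ℕ → ℝ, EN γ → ∀ w : Measure ℝ, Ad γ w → ∀ R ε : ℝ, 0 < ε → ∃ K A : ℝ, ∀ (a : ℝ) (ν : ℕ∞), A ≤ a → Big K a ν →
  ∀ f : ℝ → ℂ, Mw w a ν f → Y23.TT f 0 ≠ 0 ∧
    ∀ z : ℂ, ‖z‖ ≤ R → ‖Y23.TT f (Complex.I * z) / Y23.TT f 0 - GC (fun j => γ j ^ 2) (z ^ 2)‖ ≤ ε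

/-- **UnivE**: minimisers exist. Uses `S_KR`, `S_XtE`, `S_XtP`.
Proof. Let `μ = sup Nw w f` over `f ∈ Hn a ν` with `QQ f ≤ 1`; by `S_KR` (`δ = QQ F0 > 0`) `μ < ∞`; the hypothesis `h0` says `μ > 0`. Take `f k` with `QQ (f k) ≤ 1`,
`Nw w (f k) → μ`. `QQ f ≥ λ N2 f`, `λ > 0` (as in `S_XtE`), and `Y23.coer` bound `LL (f k)`, so by `Y23.compact_seq` a subsequence is Cauchy for `N2`; let `f` be its limit in
the mean square sense (`Fa a f`; completeness of `L²`, as in `Y23.complete_seq`). `TT (f k) w → TT f w` for every `w`, so by Fatou's lemma for the sum over the zeros `SS f ≤ 1`, `Dom f`, `f ∈ Hn a ν`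
(`Hd_iff`), and by dominated convergence (`S_KR`) `Nw w f = μ`. -/
def S_UnivE : Prop := RHy → ∀ γ : ℕ → ℝ, EN γ → ∀ w : Measure ℝ, Ad γ w → ∀ (a : ℝ) (ν : ℕ∞), 0 < a →
  (∃ g : ℝ → ℂ, Y23.G.F.Hn a ν g ∧ 0 < Nw w g) → ∃ f : ℝ → ℂ, Mw w a ν f

/-- **UnivP**: all zeros of the transforms of minimisers are on the critical line, and minimisers with a nonzero value at the centre are unique if all minimisers have this property.
Proof. Zeros: `TT f w0 = 0`, `Re w0 ≠ 0`; as in `S_XtP` `h = f + (w0 + conj w0) g`, `(w - w0) TT h w = (w + conj w0) TT f w`, so `QQ h = QQ f`, `Nw w h = Nw w f`: `h` is a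
minimiser too. `λ = QQ f / Nw w f`; `QQ - λ Nw w ≥ 0` on `Hn a ν` is a nonnegative quadratic form and `f`, `h` are in its kernel, so `TT f 0 * h - TT h 0 * f` is in the kernel, its
transform vanishes at `0`; by `hU` it is not a minimiser, so its `Nw w` is `0`, so `QQ = 0`, `TT = 0` (`S_PosZ`), i.e. `TT h = c TT f`: `w + conj w0 = c (w - w0)`
for infinitely many `w`, so `c = 1`, `Re w0 = 0`, a contradiction. Uniqueness: the same argument. -/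
def S_UnivP : Prop := RHy → ∀ γ : ℕ → ℝ, EN γ → ∀ w : Measure ℝ, Ad γ w → ∀ (a : ℝ) (ν : ℕ∞), 0 < a →
  (∀ g : ℝ → ℂ, Mw w a ν g → Y23.TT g 0 ≠ 0) → ∀ f : ℝ → ℂ, Mw w a ν f →
    (∀ z : ℂ, Y23.TT f z = 0 → z.re = 0) ∧ ∀ g : ℝ → ℂ, Mw w a ν g → ∃ c : ℂ, ∀ z, Y23.TT g z = c * Y23.TT f z

end Pool.Agent.Q240.EX
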