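import Pool.Agent.Q240.EX.Stm5

set_option autoImplicit false

/-!
# Project EX: statements of the lemma jobs, part 6
-/

open Polynomial Filter Topology Finset MeasureTheory
open Pool.Agent.H24R2.JP (XX)
open Pool.Agent.Q240.CD

namespace Pool.Agent.Q240.EX

/-- the lower bound for the norm of the extremal functions (part of the proof of `S_Univ`) -/
def S_NwLow : Prop := RHy → ∀ γ : ℕ → ℝ, EN γ → ∀ w : Measure ℝ, Ad γ w → ∃ K A c : ℝ, 0 < c ∧
  ∀ (a : ℝ) (ν : ℕ∞), A ≤ a → Big K a ν → ∀ f, Xt a ν f → c ≤ Nw w f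

/-- **AdG**: Gaussian weights are admissible.
Proof. `Gm γ x = ∏' (1 + x²/γ_j²) ≤ exp (∑ log (1 + x²/γ_j²))` and `log (1 + y) ≤ (8/7) y^(7/8)`, so `Gm γ x ≤ exp (C |x|^(7/4))` with
`C = (8/7) ∑ 1 / (γ_j²)^(7/8)` (`EN.sum`, `EN.m1`; compare `S_Mj`, `Pool.Agent.Q202.CD.mj_bound`), so `(1 + x²) Gm² exp (- η x²)` is integrable (`7/4 < 2`; `Gm` is measurable as a limit of finite
products, or `Gm γ x = GG (γ²) (-x²)`, continuous by `S_GCb` (`a_gcb`)). Positivity: `x ↦ GC (γ²) (x²)` is continuous (`a_gcb`) and `1` at `x = 0`, and the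
integral of `|GC|² exp (- η x²)` converges, as `|GC (γ²) (x²)| ≤ Gm γ x`. -/
def S_AdG : Prop := RHy → ∀ γ : ℕ → ℝ, EN γ → ∀ η : ℝ, 0 < η →
  Ad γ ((volume : Measure ℝ).withDensity fun x => ENNReal.ofReal (Real.exp (-(η * x ^ 2))))

end Pool.Agent.Q240.EX
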