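import Pool.Agent.Q240.EX.Stm3

set_option autoImplicit false

/-!
# Project EX: statements of the lemma jobs, part 4 (explicit degree, sharp threshold)
-/

open Polynomial Filter Topology Finset MeasureTheory
open Pool.Agent.H24R2.JP (XX)
open Pool.Agent.Q240.CD

namespace Pool.Agent.Q240.EX

/-- **RateN**: the accuracy with an explicit degree `ν ≥ C a exp (2 a)`. Uses `S_XtP`.
Proof. Let `X = exp (2 a)`, `T = u * ψ` as in `S_Tri`, `TT T = B XX + D`, where now also `|D w| ≤ exp (ε X) / (1 + |w|)^4` in the strip (`|TT ψ w| ≤ C_N / (1 + |w|)^N`).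
Fourier coefficients on `[-a, a]`: `TT T (i π k / a) / (2 a)`; for real `v` with `|v| ≥ C X`: `|AK L p (i v)| ≤ 2 p exp (2 π L) exp (|v| p / 2)` and
`|XX (i v)| ≤ C' (1 + |v|)^A exp (- π |v| / 4)`, `p / 2 < π / 4`, so `|B XX| ≤ exp (- c |v|)`. Hence for `n ≥ C a X` the sum `T_n` of the Fourier series
over `|k| ≤ n` (cut off outside `[-a, a]`, an element of `Hn a n`) satisfies `|T - T_n|, |T' - T_n'| ≤ exp (2 ε X)` on `[-a, a]`, so `SS (T - T_n) ≤ exp (5 ε X)`, `|TT (T - T_n) 0| ≤ exp (3 ε X)`: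
`T_n` is as good as `T`: `QQ f ≤ exp (- c X)` for `Xt a ν f`, `ν ≥ n`. The same for the functions `F_k` of `S_RateG` (take in `S_DivK` a function `χ` with a fast decaying
transform, so that `|D_k w| ≤ C^k exp (ε X) / (1 + |w|)^3`; `E_k = B XX / (w - w0)^k` decays like `B XX`): `G_n ∈ Hn a n` with `TT G_n w0 = 1`, `|TT G_n 0| ≤ exp (ε X)`,
`SS G_n ≤ mu (1/2 + w0) + exp (- c X)`. Then the argument of `S_RateF` with `G_n`. -/
def S_RateN : Prop := RHy → ∀ γ : ℝ, γ ≠ 0 → XX (Complex.I * γ) = 0 → ∀ c : ℝ, c < 4 * Real.pi → ∃ C A : ℝ, ∀ (a : ℝ) (ν : ℕ∞), A ≤ a →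
  ((⌈C * a * Real.exp (2 * a)⌉₊ : ℕ) : ℕ∞) ≤ ν → ∀ f : ℝ → ℂ, Xt a ν f →
    Y23.QQ f ≤ Real.exp (-(c * Real.exp (2 * a))) ∧ ‖Y23.TT f (Complex.I * γ)‖ ≤ Real.exp (-(c * Real.exp (2 * a)))

/-- **Thr**: the threshold `n / a² → ∞` is sharp. Uses `S_UZc`, `S_XtP`, project CD (`a_rep`, `a_sn`, `a_limS` not needed).
Proof. Suppose `n a / a²` does not tend to infinity: there is `C` with `n a ≤ C a²` for arbitrarily large `a`. Let `l = atTop ⊓ 𝓟 {a | n a ≤ C a²}`, `NeBot`. Fix `y = 1`, `z = -i y`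
(so `z² = -1`), `G = GC (γ²) (-1) = ∏ (1 + 1/γ_j²) > 0`; `TT (f a) 1 → G` along `l`.
`TT (f a) (I z) = P(z) S_{a,n}(z)` (`a_rep`), `P(0) = 1`, all zeros of `P` are real (`S_XtP`), so `|P(-i)| = ∏ |1 + i / b| ≥ 1`, and
`S_{a,n}(-i) = ∏_{k>n} (1 + 1 / x_k²) ≥ 1 + sn a n`, `sn a n ≥ a² / (π² (n + 1))`.
Case 1: for some `c > 0` `n a ≥ c a²` frequently along `l`. By `S_UZc` (`δ = QQ f > 0`) `|TT f 1 - G S_{a,n}(-i)|² ≤ ε` for these large `a`, with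
`S_{a,n}(-i) ≥ 1 + a² / (π² (C a² + 1)) ≥ 1 + c₁`; contradiction to `TT (f a) 1 → G > 0`. Case 2: otherwise `n a / a² → 0` along `l`, so `sn a (n a) → ∞`,
`|TT (f a) 1| ≥ sn a (n a) → ∞`, contradiction. -/
def S_Thr : Prop := RHy → ∀ γ : ℕ → ℝ, EN γ → ∀ (n : ℝ → ℕ) (f : ℝ → ℝ → ℂ), (∀ᶠ a in atTop, Xt a (n a : ℕ∞) (f a)) →
  TendstoLocallyUniformly (fun a (z : ℂ) => Y23.TT (f a) (Complex.I * z)) (fun z => GC (fun j => γ j ^ 2) (z ^ 2)) atTop →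
    Tendsto (fun a : ℝ => (n a : ℝ) / a ^ 2) atTop atTop

end Pool.Agent.Q240.EX
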