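import Pool.Agent.Q240.EX.Asm
import Pool.Agent.Q240.EX.Stm4

set_option autoImplicit false

/-!
# Project EX: the zeros with an explicit degree
-/

open Filter Topology Finset MeasureTheory Complex
open Pool.Agent.H24R2.JP (XX)
open Pool.Agent.Q240.CD

namespace Pool.Agent.Q240.EX

lemma EN.gpos {γ : ℕ → ℝ} (hγ : EN γ) (j : ℕ) : 0 < γ j := lt_of_lt_of_le hγ.pos (hγ.mono.monotone (Nat.zero_le j))

lemma EN.gmono {γ : ℕ → ℝ} (hγ : EN γ) : StrictMono fun j => γ j ^ 2 :=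
  fun i _ hij => pow_lt_pow_left₀ (hγ.mono hij) (hγ.gpos i).le two_ne_zero

lemma EN.gsum {γ : ℕ → ℝ} (hγ : EN γ) : Summable fun j => 1 / (fun j => γ j ^ 2) j := by
  have hg0 : 0 < (fun j => γ j ^ 2) 0 := pow_pos (hγ.gpos 0) 2
  have h1 : Summable fun j => 1 / (γ j ^ 2) ^ (7 / 8 : ℝ) := by
    refine Summable.of_nonneg_of_le (fun j => ?_) (fun j => ?_) hγ.sum
    · exact div_nonneg zero_le_one (Real.rpow_nonneg (sq_nonneg _) _)
    · refine div_le_div_of_nonneg_right ?_ (Real.rpow_nonneg (sq_nonneg _) _)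
      exact_mod_cast hγ.m1 j
  refine Summable.of_nonneg_of_le (fun j => ?_) (fun j => ?_) (h1.mul_left ((γ 0 ^ 2) ^ (-(1 / 8) : ℝ)))
  · simp only
    have := hγ.gpos j
    positivity
  · have hx : 0 < γ j ^ 2 := pow_pos (hγ.gpos j) 2
    have e : 1 / (γ j ^ 2) = (γ j ^ 2) ^ (-(1 / 8) : ℝ) * (1 / (γ j ^ 2) ^ (7 / 8 : ℝ)) := by
      rw [one_div ((γ j ^ 2) ^ (7 / 8 : ℝ)), ← Real.rpow_neg hx.le, ← Real.rpow_add hx, show (-(1 / 8) + -(7 / 8) : ℝ) = -1 by norm_num,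
        Real.rpow_neg_one, one_div]
    simp only
    rw [e]
    refine mul_le_mul_of_nonneg_right ?_ (div_nonneg zero_le_one (Real.rpow_nonneg hx.le _))
    refine Real.rpow_le_rpow_of_nonpos hg0 (hγ.gmono.monotone (Nat.zero_le j)) (by norm_num)

/-- every point where the limit vanishes has a zero of the extremal function near it -/
lemma near_zero (hUZt : S_UZt) (hP : S_XtP) (hZD : S_ZD) (hGC : S_GCb) (hRH : RHy) {γ : ℕ → ℝ} (hγ : EN γ) (j : ℕ) :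
    ∃ C r K A : ℝ, 0 < C ∧ 0 < r ∧ ∀ (a : ℝ) (ν : ℕ∞) (f : ℝ → ℂ), A ≤ a → Big K a ν → Xt a ν f → ∀ e : ℝ, e ≤ r →
      ‖Y23.TT f (I * (γ j : ℂ))‖ ≤ e → ∃ x : ℝ, |x - γ j| ≤ C * e ∧ Y23.TT f (I * x) = 0 := by
  obtain ⟨hd, h00, hz, hdz, -, -⟩ := hGC (fun j => γ j ^ 2) hγ.gmono (pow_pos (hγ.gpos 0) 2) hγ.gsum
  have hG0 : (fun z => GC (fun j => γ j ^ 2) (z ^ 2)) (γ j : ℂ) = 0 := by
    simp only
    rw [hz]
    exact ⟨j, by push_cast; rfl⟩
  have hG1 : deriv (fun z : ℂ => GC (fun j => γ j ^ 2) (z ^ 2)) (γ j : ℂ) ≠ 0 := by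
    have h1 : HasDerivAt (fun z : ℂ => z ^ 2) (2 * (γ j : ℂ)) (γ j : ℂ) := by
      simpa using hasDerivAt_pow 2 (γ j : ℂ)
    have h2 : HasDerivAt (GC fun j => γ j ^ 2) (deriv (GC fun j => γ j ^ 2) ((γ j : ℂ) ^ 2)) ((γ j : ℂ) ^ 2) :=
      (hd ((γ j : ℂ) ^ 2)).hasDerivAt
    have h3 : HasDerivAt (fun z : ℂ => GC (fun j => γ j ^ 2) (z ^ 2))
        (deriv (GC fun j => γ j ^ 2) ((γ j : ℂ) ^ 2) * (2 * (γ j : ℂ))) (γ j : ℂ) :=
      HasDerivAt.comp (h₂ := GC fun j => γ j ^ 2) (h := fun z : ℂ => z ^ 2) (γ j : ℂ) h2 h1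
    rw [h3.deriv]
    refine mul_ne_zero ?_ (mul_ne_zero two_ne_zero (by exact_mod_cast (hγ.gpos j).ne'))
    have := hdz j
    push_cast at this
    exact this
  obtain ⟨C, r, hC, hr, h⟩ := hZD Fx _ _ (γ j) (conv hUZt hP hRH hγ)
    (ev_Fx.2 ⟨0, 1, fun i hi => (Y23.differentiable_TT hi.2.2.1.1).comp (by fun_prop)⟩)
    (ev_Fx.2 ⟨0, 1, fun i hi x => hi.2.2.real hP hRH (lt_of_lt_of_le one_pos hi.1) x⟩) hG0 hG1
  obtain ⟨K, A, h⟩ := ev_Fx.1 h
  exact ⟨C, r, K, A, hC, hr, fun a ν f h1 h2 h3 => h (a, ν, f) ⟨h1, h2, h3⟩⟩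

theorem zerosN (hUZt : S_UZt) (hP : S_XtP) (hRN : S_RateN) (hZD : S_ZD) (hGC : S_GCb) (hRH : RHy)
    {γ : ℕ → ℝ} (hγ : EN γ) (j : ℕ) {c : ℝ} (hc : c < 4 * Real.pi) :
    ∃ C A : ℝ, ∀ (a : ℝ) (ν : ℕ∞), A ≤ a → ((⌈C * a * Real.exp (2 * a)⌉₊ : ℕ) : ℕ∞) ≤ ν → ∀ f : ℝ → ℂ, Xt a ν f →
      Y23.QQ f ≤ Real.exp (-(c * Real.exp (2 * a))) ∧
        ∃ x : ℝ, |x - γ j| ≤ Real.exp (-(c * Real.exp (2 * a))) ∧ Y23.TT f (I * x) = 0 := by
  obtain ⟨C, r, K, A, hC, hr, h⟩ := near_zero hUZt hP hZD hGC hRH hγ j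
  set c' : ℝ := (max c 0 + 4 * Real.pi) / 2 with hc'
  have hpi := Real.pi_pos
  have hm : max c 0 < 4 * Real.pi := max_lt hc (by positivity)
  have hc1 : c' < 4 * Real.pi := by rw [hc']; linarith
  have hc2 : max c 0 < c' := by rw [hc']; linarith
  have hc2' : c < c' := (le_max_left _ _).trans_lt hc2
  have hc0 : 0 < c' := (le_max_right c 0).trans_lt hc2
  have hX : Tendsto (fun a : ℝ => Real.exp (2 * a)) atTop atTop :=
    Real.tendsto_exp_atTop.comp (tendsto_id.const_mul_atTop two_pos)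
  have hz1 : Tendsto (fun a : ℝ => Real.exp (-(c' * Real.exp (2 * a)))) atTop (𝓝 0) := by
    refine Real.tendsto_exp_atBot.comp ?_
    exact tendsto_neg_atTop_atBot.comp (hX.const_mul_atTop hc0)
  have hz2 : Tendsto (fun a : ℝ => C * Real.exp (-((c' - c) * Real.exp (2 * a)))) atTop (𝓝 (C * 0)) := by
    refine Tendsto.const_mul C ?_
    refine Real.tendsto_exp_atBot.comp ?_
    exact tendsto_neg_atTop_atBot.comp (hX.const_mul_atTop (by linarith))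
  rw [mul_zero] at hz2
  obtain ⟨C1, A1, hN⟩ := hRN hRH (γ j) (hγ.gpos j).ne' ((hγ.zer _).2 ⟨j, Or.inl rfl⟩) c' hc1
  -- `K a² ≤ a exp (2a)`
  have hK : ∀ᶠ a : ℝ in atTop, K * a ^ 2 ≤ 1 * a * Real.exp (2 * a) := by
    filter_upwards [eventually_ge_atTop 0, eventually_ge_atTop (Real.log (|K| + 1)), eventually_ge_atTop 1] with a h0 h1 h2
    have h3 : |K| + 1 ≤ Real.exp a := by
      rw [← Real.exp_log (by positivity : (0 : ℝ) < |K| + 1)]
      exact Real.exp_le_exp.2 h1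
    have h4 : a ≤ Real.exp a := by
      have := Real.add_one_le_exp a
      linarith
    have h5 : Real.exp (2 * a) = Real.exp a * Real.exp a := by rw [← Real.exp_add]; congr 1; ring
    have h6 : K ≤ Real.exp a := by linarith [le_abs_self K]
    calc K * a ^ 2 ≤ Real.exp a * a ^ 2 := mul_le_mul_of_nonneg_right h6 (sq_nonneg a)
      _ = a * (Real.exp a * a) := by ring
      _ ≤ a * (Real.exp a * Real.exp a) := mul_le_mul_of_nonneg_left (mul_le_mul_of_nonneg_left h4 (Real.exp_pos _).le) h0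
      _ = 1 * a * Real.exp (2 * a) := by rw [h5]; ring
  obtain ⟨A', hA'⟩ := eventually_atTop.1 (hK.and ((hz1.eventually (gt_mem_nhds hr)).and (hz2.eventually (gt_mem_nhds one_pos))))
  refine ⟨max C1 1, max (max A A1) (max A' 1), fun a ν ha hν f hf => ?_⟩
  have haA : A ≤ a := (le_max_left _ _).trans ((le_max_left _ _).trans ha)
  have haA1 : A1 ≤ a := (le_max_right _ _).trans ((le_max_left _ _).trans ha)
  have haA' : A' ≤ a := (le_max_left _ _).trans ((le_max_right _ _).trans ha)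
  have ha0 : 0 < a := lt_of_lt_of_le one_pos ((le_max_right _ _).trans ((le_max_right _ _).trans ha))
  have hE : 0 < Real.exp (2 * a) := Real.exp_pos _
  obtain ⟨h1, h2, h3⟩ := hA' a haA'
  have hν1 : ((⌈C1 * a * Real.exp (2 * a)⌉₊ : ℕ) : ℕ∞) ≤ ν := by
    refine le_trans ?_ hν
    exact_mod_cast Nat.ceil_le_ceil (mul_le_mul_of_nonneg_right (mul_le_mul_of_nonneg_right (le_max_left _ _) ha0.le) hE.le)
  have hν2 : Big K a ν := by
    refine le_trans ?_ hν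
    have : 1 * a * Real.exp (2 * a) ≤ max C1 1 * a * Real.exp (2 * a) :=
      mul_le_mul_of_nonneg_right (mul_le_mul_of_nonneg_right (le_max_right _ _) ha0.le) hE.le
    exact_mod_cast Nat.ceil_le_ceil (h1.trans this)
  obtain ⟨h4, h5⟩ := hN a ν haA1 hν1 f hf
  have hle : Real.exp (-(c' * Real.exp (2 * a))) ≤ Real.exp (-(c * Real.exp (2 * a))) := by
    refine Real.exp_le_exp.2 (neg_le_neg (mul_le_mul_of_nonneg_right hc2'.le hE.le))
  obtain ⟨x, hx1, hx2⟩ := h a ν f haA hν2 hf _ h2.le h5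
  refine ⟨h4.trans hle, x, hx1.trans ?_, hx2⟩
  have e : Real.exp (-(c' * Real.exp (2 * a))) = Real.exp (-((c' - c) * Real.exp (2 * a))) * Real.exp (-(c * Real.exp (2 * a))) := by
    rw [← Real.exp_add]
    congr 1
    ring
  rw [e, ← mul_assoc]
  calc _ ≤ 1 * Real.exp (-(c * Real.exp (2 * a))) := mul_le_mul_of_nonneg_right h3.le (Real.exp_pos _).le
    _ = _ := one_mul _

end Pool.Agent.Q240.EX
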