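import Pool.Agent.Q240.EX.Def

set_option autoImplicit false

/-!
# Project EX: continuously differentiable functions are in the form domain
-/

open Filter Topology Finset MeasureTheory Complex

namespace Pool.Agent.Q240.EX

theorem hd_C1 {a : ℝ} (ha : 0 < a) {g : ℝ → ℂ} (hg : ContDiff ℝ 1 g) (h0 : ∀ x : ℝ, a ≤ |x| → g x = 0) : Y23.Hd a g := by
  have hc : Continuous g := hg.continuous
  have hc' : Continuous (deriv g) := hg.continuous_deriv le_rfl
  have hsup : HasCompactSupport g := by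
    refine HasCompactSupport.intro (isCompact_Icc (a := -a) (b := a)) fun x hx => h0 x ?_
    rw [Set.mem_Icc, ← abs_le, not_le] at hx
    exact hx.le
  have hF : Y23.Fa a g := ⟨hc.memLp_of_hasCompactSupport hsup, fun x hx => h0 x hx.le⟩
  rw [Y23.Hd_iff ha]
  refine ⟨hF, ?_⟩
  set C0 : ℝ := ∫ x, ‖g x‖ with hC0
  set C1 : ℝ := ∫ x, ‖deriv g x‖ with hC1
  have i0 : Integrable g := hc.integrable_of_hasCompactSupport hsup
  have i1 : Integrable (deriv g) := hc'.integrable_of_hasCompactSupport hsup.deriv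
  have he : ∀ w : ℂ, |w.re| ≤ 1 / 2 → ∀ x : ℝ, |x| ≤ a → ‖cexp (w * x)‖ ≤ Real.exp (a / 2) := by
    intro w hw x hx
    rw [Complex.norm_exp, Complex.re_mul_ofReal]
    refine Real.exp_le_exp.2 ?_
    calc w.re * x ≤ |w.re * x| := le_abs_self _
      _ = |w.re| * |x| := abs_mul _ _
      _ ≤ 1 / 2 * a := mul_le_mul hw hx (abs_nonneg _) (by norm_num)
      _ = a / 2 := by ring
  have hd0 : ∀ x : ℝ, a < |x| → deriv g x = 0 := by
    intro x hx
    have h1 : g =ᶠ[𝓝 x] fun _ => 0 := by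
      have : ∀ᶠ y in 𝓝 x, a < |y| := continuous_abs.continuousAt.eventually (lt_mem_nhds hx)
      filter_upwards [this] with y hy
      exact h0 y hy.le
    rw [h1.deriv_eq, deriv_const]
  have b0 : ∀ w : ℂ, |w.re| ≤ 1 / 2 → ‖Y23.TT g w‖ ≤ Real.exp (a / 2) * C0 := by
    intro w hw
    unfold Y23.TT
    rw [hC0, ← integral_const_mul]
    refine norm_integral_le_of_norm_le (i0.norm.const_mul _) (Eventually.of_forall fun x => ?_)
    rw [norm_mul, mul_comm]
    by_cases hx : |x| ≤ a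
    · exact mul_le_mul_of_nonneg_right (he w hw x hx) (norm_nonneg _)
    · rw [h0 x (not_le.1 hx).le, norm_zero, mul_zero, mul_zero]
  have b1 : ∀ w : ℂ, |w.re| ≤ 1 / 2 → ‖w‖ * ‖Y23.TT g w‖ ≤ Real.exp (a / 2) * C1 := by
    intro w hw
    have hcw : Continuous fun x : ℝ => cexp (w * x) := by fun_prop
    have h1 : ∫ x : ℝ, g x * (cexp (w * x) * w) = -∫ x : ℝ, deriv g x * cexp (w * x) := by
      refine integral_mul_deriv_eq_deriv_mul_of_integrable (u := g) (v := fun x : ℝ => cexp (w * x)) (u' := deriv g)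
        (v' := fun x : ℝ => cexp (w * x) * w) (fun x _ => (hg.differentiable one_ne_zero x).hasDerivAt) (fun x _ => ?_) ?_ ?_ ?_
      · have h2 : HasDerivAt (fun x : ℝ => w * (x : ℂ)) w x := by
          simpa using (Complex.ofRealCLM.hasDerivAt (x := x)).const_mul w
        exact h2.cexp
      · exact (hc.mul (hcw.mul continuous_const)).integrable_of_hasCompactSupport hsup.mul_right
      · exact (hc'.mul hcw).integrable_of_hasCompactSupport hsup.deriv.mul_right
      · exact (hc.mul hcw).integrable_of_hasCompactSupport hsup.mul_right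
    have h2 : w * Y23.TT g w = -∫ x : ℝ, deriv g x * cexp (w * x) := by
      rw [← h1]
      unfold Y23.TT
      rw [← integral_const_mul]
      refine integral_congr_ae (Eventually.of_forall fun x => ?_)
      simp only
      ring
    rw [← norm_mul, h2, norm_neg, hC1, ← integral_const_mul]
    refine norm_integral_le_of_norm_le (i1.norm.const_mul _) (Eventually.of_forall fun x => ?_)
    rw [norm_mul, mul_comm]
    by_cases hx : |x| ≤ a
    · exact mul_le_mul_of_nonneg_right (he w hw x hx) (norm_nonneg _)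
    · rw [hd0 x (not_le.1 hx), norm_zero, mul_zero, mul_zero]
  set K : ℝ := (Real.exp (a / 2) * C0) ^ 2 + (Real.exp (a / 2) * C1) ^ 2 with hK
  refine Summable.of_nonneg_of_le (fun ρ => by positivity) (fun ρ => ?_) ((Y23.zsummable 0).mul_left K)
  have hw := Y23.half_re ρ
  set w : ℂ := (ρ : ℂ) - 1 / 2 with hwd
  have e : w.im = (ρ : ℂ).im := by simp [hwd]
  have h1 := pow_le_pow_left₀ (norm_nonneg _) (b0 w hw) 2
  have h2 := pow_le_pow_left₀ (by positivity) (b1 w hw) 2
  have h3 : w.im ^ 2 ≤ ‖w‖ ^ 2 := by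
    rw [← sq_abs w.im]
    exact pow_le_pow_left₀ (abs_nonneg _) (Complex.abs_im_le_norm w) 2
  have h4 : (1 + ((ρ : ℂ).im - 0) ^ 2) * ‖Y23.TT g w‖ ^ 2 ≤ K := by
    rw [sub_zero, ← e, hK]
    have h5 := mul_le_mul_of_nonneg_right h3 (sq_nonneg ‖Y23.TT g w‖)
    rw [mul_pow] at h2
    linarith
  have h5 : ‖Y23.TT g w‖ ^ 2 ≤ K * (1 / (1 + ((ρ : ℂ).im - 0) ^ 2)) := by
    rw [mul_one_div, le_div_iff₀ (by positivity), mul_comm]
    exact h4
  calc (Y23.mu ρ : ℝ) * ‖Y23.TT g w‖ ^ 2 ≤ (Y23.mu ρ : ℝ) * (K * (1 / (1 + ((ρ : ℂ).im - 0) ^ 2))) :=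
        mul_le_mul_of_nonneg_left h5 (Nat.cast_nonneg _)
    _ = _ := by ring

end Pool.Agent.Q240.EX
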