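import Pool.Agent.Q240.EX.Stm2
import Pool.Agent.Q240.EX.HdS

set_option autoImplicit false

/-!
# Project EX: `S_Dn`
-/

open Filter Topology Finset MeasureTheory Complex

namespace Pool.Agent.Q240.EX

theorem dn (hD : S_Den) (hA : S_App) : S_Dn := by
  intro a f ha hf ε hε
  obtain ⟨g, hg, ⟨b, hb0, hba, hb⟩, h1⟩ := hD a f ha hf (ε / 4) (by linarith)
  obtain ⟨n, h, hh, h2⟩ := hA a g ha hg ⟨b, hb0, hba, hb⟩ (ε / 4) (by linarith)
  have hgH : Y23.Hd a g := hd_C1 ha (hg.of_le (by norm_num)) fun x hx => hb x (hba.le.trans hx)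
  have hhH : Y23.Hd a h := hh.hd
  refine ⟨n, h, hh, ?_⟩
  have h3 := Y23.LL_add_le (hf.sub hgH) (hgH.sub hhH)
  have e : (fun x => f x - g x + (g x - h x)) = fun x => f x - h x := by
    funext x
    ring
  rw [e] at h3
  linarith

end Pool.Agent.Q240.EX
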