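import Pool.Agent.Q240.EX.Stm
import Pool.Agent.Q240.EX.Stm2

set_option autoImplicit false

/-!
# Project EX: statements of the lemma jobs, part 3 (degrees `n ≥ c a²`, sharper forms of `S_Fam2Z` and `S_UZ`)
-/

open Polynomial Filter Topology Finset MeasureTheory
open Pool.Agent.H24R2.JP (XX)
open Pool.Agent.Q240.CD

namespace Pool.Agent.Q240.EX

/-- the filter `a → ∞`, `n ≥ c a²` -/
noncomputable def Lc (c : ℝ) : Filter (ℝ × ℕ) := Filter.comap (fun p : ℝ × ℕ => p.1) atTop ⊓ 𝓟 {p : ℝ × ℕ | ⌈c * p.1 ^ 2⌉₊ ≤ p.2}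

/-- **Fam2Zc**: the point masses `2 m_j S(√ g_j)²` satisfy `Fam2` for `a → ∞`, `n ≥ c a²`, for every fixed `c > 0`.
Proof: as for `S_Fam2Z`, with `n' = ⌈c a²⌉₊`, `κ = c` (`ceil_sq c`). For `√ g_j ≤ x_{n'+1}` (true for large `a`) all factors of `S_{a,n'}(√ g_j)`
are in `[0, 1]`, so for `n ≥ n'`: `S_{a,n'}(√ g_j) ≤ S_{a,n}(√ g_j) ≤ 1` and `V(g j) = S_{a,n'}(√ g_j) / S_{a,n}(√ g_j) ≥ S_{a,n'}(√ g_j)`, which tends to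
`exp (- ck c * g j) > 0` (`S_LimS`). This gives `low` (`Mn g m (a,n) j ≥ 2 m j S_{a,n'}(√ g_j)²`) and the bounds in `sep`; `S_LimS2` is not needed. -/
def S_Fam2Zc : Prop := ∀ c : ℝ, 0 < c → ∀ (g m : ℕ → ℝ), StrictMono g → 0 < g 0 → (∀ j, 1 ≤ m j) →
  (Summable fun j => m j / g j ^ (7 / 8 : ℝ)) →
  (∀ (a : ℝ) (n : ℕ), 0 < a → ∀ q : ℝ[X], q.natDegree ≤ n → q ≠ 0 → 0 < Lam g (Mn g m (a, n)) (q * q)) →
    (∀ (a : ℝ) (n : ℕ), 0 < a → PM g (Mn g m (a, n)) n) ∧ Fam2 (Lc c) g (fun p => p.2) (Mn g m)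

/-- `S_Fam2Z` follows from `S_Fam2Zc` (for `c = 1`), as `Li ≤ Lc 1` -/
def S_LiLc : Prop := ∀ c : ℝ, 0 < c → Li ≤ Lc c

/-- **UZc**: the collapse of Weil's form for all degrees `n ≥ c a²`, with the explicit factor `S_{a,n}`. Uses `S_MainU`, `S_Fam2Zc` and project CD
(`a_rep`, `a_form`, `a_sumZ`, `a_posZ`, `LZ_Lp`).
Proof: `g j = γ j ^ 2`, `m j = mz (γ j)`; definiteness from `a_posZ` as in `ThA`. `TT f (I z) = (A(z) + i B(z)) S(z)`, `QQ f = Lp A + Lp B`;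
`δ ≤ δ₀ = Lam (q0 * q0)`, as `q0(x²) S` is the transform of an admissible function. Then
`TT f (I z) - TT f 0 GC (z²) S(z) = S(z) ((A(z) - A(0) GC (z²)) + i (B(z) - B(0) GC (z²)))`, `S_MainU` for `A` and `B`, and `|S(z)|` is bounded for `‖z‖ ≤ R`
(`|S_{a,n}(z)| ≤ exp (R² sn a n)`, `S_Sn`). -/
def S_UZc : Prop := RHy → ∀ γ : ℕ → ℝ, EN γ → ∀ c : ℝ, 0 < c → ∀ R ε : ℝ, 0 < ε → ∀ᶠ p : ℝ × ℕ in Lc c, ∀ δ : ℝ,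
  (∀ g : ℝ → ℂ, Y23.G.F.Hn p.1 (p.2 : ℕ∞) g → Y23.TT g 0 = 1 → δ ≤ Y23.QQ g) →
    ∀ f : ℝ → ℂ, Y23.G.F.Hn p.1 (p.2 : ℕ∞) f → ∀ z : ℂ, ‖z‖ ≤ R →
      δ * ‖Y23.TT f (Complex.I * z) - Y23.TT f 0 * (GC (fun j => γ j ^ 2) (z ^ 2) * Sp p.1 p.2 z)‖ ^ 2 ≤ ε * Y23.QQ f

end Pool.Agent.Q240.EX
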