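import Pool.Agent.Q240.EX.K1
import Pool.Agent.Q240.EX.Dn
import Pool.Agent.Q240.EX.Asm2
import Pool.Agent.Q240.EX.Stm6
import Pool.Agent.Q240.CD.All
import Pool.Agent.Q240.CD.AllZ
import Pool.Agent.Q261.EX.Kern
import Pool.Agent.Q208.EX.Neg1
import Pool.Agent.Q208.EX.Gap2
import Pool.Agent.Q208.EX.XtE
import Pool.Agent.Q211.EX.MainU
import Pool.Agent.Q65.EX.UZt
import Pool.Agent.Q96.EX.Nu
import Pool.Agent.Q96.EX.NegX
import Pool.Agent.Q96.EX.UZc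
import Pool.Agent.Q68.EX.LimS2
import Pool.Agent.Q224.EX.Thr
import Pool.Agent.Q285.EX.Univ
import Pool.Agent.Q285.EX.NwLow
import Pool.Agent.Q193.EX.ZD
import Pool.Agent.Q193.EX.RateF
import Pool.Agent.Q176.EXD.DivK
import Pool.Agent.Q176.EXD.RateG
import Pool.Agent.Q26.EX.Tri
import Pool.Agent.Q26.EX.Rate
import Pool.Agent.Q38.EX.XtP
import Pool.Agent.Q251.EX.UnivP
import Pool.Agent.Q223.EX.UnivE
import Pool.Agent.Q262.EX.Fam2Zc
import Pool.Agent.Q262.EX.Q0c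
import Pool.Agent.Q129.EX.Den
import Pool.Agent.Q153.EX.App
import Pool.Agent.Q182.EX.KR

set_option autoImplicit false

/-!
# Project EX: the statements of the lemma jobs, proved
-/

open Polynomial Filter Topology Finset MeasureTheory
open Pool.Agent.Q240.CD

namespace Pool.Agent.Q240.EX

theorem a_kern : S_Kern := Pool.Agent.Q261.EX.kern
theorem a_neg1 : S_Neg1 := Pool.Agent.Q208.EX.neg1 a_zer
theorem a_k1 : S_K1 := k1 a_kern a_neg1
theorem a_del2 : S_Del2 := del2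
theorem a_gap2 : S_Gap2 := Pool.Agent.Q208.EX.gap2 a_k1 a_del2
theorem a_q0c : S_Q0c := Pool.Agent.Q262.EX.q0c a_del2
theorem a_mainU : S_MainU := Pool.Agent.Q211.EX.mainU a_q0c a_gap2
theorem a_limS2 : S_LimS2 := Pool.Agent.Q68.EX.limS2
theorem a_fam2Zc : S_Fam2Zc := Pool.Agent.Q262.EX.fam2Zc
theorem a_uzc : S_UZc := Pool.Agent.Q96.EX.uZc a_mainU a_fam2Zc
theorem a_uz : S_UZ := Pool.Agent.Q96.EX.uz a_uzc a_limS2
theorem a_den : S_Den := Pool.Agent.Q129.EX.den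
theorem a_app : S_App := Pool.Agent.Q153.EX.app
theorem a_dn : S_Dn := dn a_den a_app
theorem a_uzt : S_UZt := Pool.Agent.Q65.EX.uZt a_uz a_dn
theorem a_xtE : S_XtE := Pool.Agent.Q208.EX.xtE
theorem a_xtP : S_XtP := Pool.Agent.Q38.EX.xtP
theorem a_nu : S_Nu := Pool.Agent.Q96.EX.nu a_dn a_xtE a_xtP
theorem a_negX : S_NegX := Pool.Agent.Q96.EX.negX
theorem a_tri : S_Tri := Pool.Agent.Q26.EX.tri
theorem a_rate : S_Rate := Pool.Agent.Q26.EX.rate
theorem a_divK : S_DivK := Pool.Agent.Q176.EXD.divK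
theorem a_rateG : S_RateG := Pool.Agent.Q176.EXD.rateG a_tri a_divK
theorem a_rateF : S_RateF := Pool.Agent.Q193.EX.rateF a_rate a_rateG a_xtP
theorem a_zD : S_ZD := Pool.Agent.Q193.EX.zD
theorem a_thr : S_Thr := Pool.Agent.Q224.EX.thr a_uzc a_xtP
theorem a_kr : S_KR := Pool.Agent.Q182.EX.kr a_dn
theorem a_univ : S_Univ := Pool.Agent.Q285.EX.univ a_kr a_uzt a_xtE a_xtP
theorem a_univE : S_UnivE := Pool.Agent.Q223.EX.univE a_kr a_xtE a_xtP
theorem a_univP : S_UnivP := Pool.Agent.Q251.EX.univP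
theorem a_nwLow : S_NwLow := by
  intro hRH γ hγ w hw
  obtain ⟨K, A, c, h1, h2⟩ := Pool.Agent.Q285.EX.nw_low a_kr a_uzt a_xtE a_xtP hRH hγ w hw
  exact ⟨K, A, c, h1, h2⟩

end Pool.Agent.Q240.EX
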