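import Pool.Agent.Q240.EX.Stm3
import Pool.Agent.Q240.CD.Stm2

set_option autoImplicit false

/-!
# Project EX: assembly (convergence of the extremal functions, zeros)
-/

open Filter Topology Finset MeasureTheory Complex
open Pool.Agent.H24R2.JP (XX)
open Pool.Agent.Q240.CD

namespace Pool.Agent.Q240.EX

lemma Big.mono {K K' a : ℝ} {ν : ℕ∞} (h : K ≤ K') (h2 : Big K' a ν) : Big K a ν := by
  unfold Big at *
  refine le_trans ?_ h2
  exact_mod_cast Nat.ceil_le_ceil (mul_le_mul_of_nonneg_right h (sq_nonneg a))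

lemma Big.top (K a : ℝ) : Big K a ⊤ := le_top

/-- the basic sets: extremal functions of large degree -/
def FS (K A : ℝ) : Set (ℝ × ℕ∞ × (ℝ → ℂ)) := {i | A ≤ i.1 ∧ Big K i.1 i.2.1 ∧ Xt i.1 i.2.1 i.2.2}

lemma FS_mono {K K' A A' : ℝ} (hK : K ≤ K') (hA : A ≤ A') : FS K' A' ⊆ FS K A :=
  fun _ hi => ⟨hA.trans hi.1, Big.mono hK hi.2.1, hi.2.2⟩

/-- the filter of the extremal functions with `a → ∞`, `ν / a² → ∞` -/
def Fx : Filter (ℝ × ℕ∞ × (ℝ → ℂ)) where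
  sets := {s | ∃ K A : ℝ, FS K A ⊆ s}
  univ_sets := ⟨0, 0, Set.subset_univ _⟩
  sets_of_superset := by
    rintro x y ⟨K, A, h⟩ hxy
    exact ⟨K, A, h.trans hxy⟩
  inter_sets := by
    rintro x y ⟨K, A, h⟩ ⟨K', A', h'⟩
    exact ⟨max K K', max A A', Set.subset_inter ((FS_mono (le_max_left _ _) (le_max_left _ _)).trans h)
      ((FS_mono (le_max_right _ _) (le_max_right _ _)).trans h')⟩

lemma mem_Fx {s : Set (ℝ × ℕ∞ × (ℝ → ℂ))} : s ∈ Fx ↔ ∃ K A : ℝ, FS K A ⊆ s := Iff.rfl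

lemma ev_Fx {p : ℝ × ℕ∞ × (ℝ → ℂ) → Prop} : (∀ᶠ i in Fx, p i) ↔ ∃ K A : ℝ, ∀ i ∈ FS K A, p i := Iff.rfl

/-- the bound for one extremal function -/
lemma close {G S ε : ℝ} (h : 0 < G) (h1 : G * S ^ 2 ≤ ε ^ 2 * G) (hε : 0 ≤ ε) (hS : 0 ≤ S) : S ≤ ε := by
  have h2 : S ^ 2 ≤ ε ^ 2 := by
    rw [mul_comm (ε ^ 2)] at h1
    exact le_of_mul_le_mul_left h1 h
  exact (pow_le_pow_iff_left₀ hS hε two_ne_zero).1 h2

theorem conv (hUZt : S_UZt) (hP : S_XtP) (hRH : RHy) {γ : ℕ → ℝ} (hγ : EN γ) :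
    TendstoLocallyUniformly (fun (i : ℝ × ℕ∞ × (ℝ → ℂ)) (z : ℂ) => Y23.TT i.2.2 (I * z)) (fun z => GC (fun j => γ j ^ 2) (z ^ 2)) Fx := by
  rw [tendstoLocallyUniformly_iff_forall_isCompact]
  intro K hK
  obtain ⟨R, hR⟩ := hK.isBounded.subset_closedBall 0
  rw [Metric.tendstoUniformlyOn_iff]
  intro ε hε
  obtain ⟨K', A, h⟩ := hUZt hRH γ hγ R ((ε / 2) ^ 2) (by positivity)
  refine ev_Fx.2 ⟨K', max A 1, fun i hi z hz => ?_⟩
  obtain ⟨a, ν, f⟩ := i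
  obtain ⟨h1, h2, h3⟩ := hi
  have ha : 0 < a := lt_of_lt_of_le one_pos ((le_max_right _ _).trans h1)
  have h4 := h a ν ((le_max_left _ _).trans h1) h2 (Y23.QQ f) h3.2.2 f h3.1 z (by simpa using hR hz)
  have h5 := (hP hRH a ν f ha h3).1
  have h6 := close h5 h4 (by positivity) (norm_nonneg _)
  rw [h3.2.1, one_mul] at h6
  rw [dist_comm, dist_eq_norm]
  simp only
  linarith

lemma Xt.real (hP : S_XtP) (hRH : RHy) {a : ℝ} {ν : ℕ∞} {f : ℝ → ℂ} (ha : 0 < a) (hf : Xt a ν f) (x : ℝ) : (Y23.TT f (I * x)).im = 0 := by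
  obtain ⟨-, -, h1, h2, -, -⟩ := hP hRH a ν f ha hf
  have h3 := h2 (I * x)
  rw [map_mul, conj_I, conj_ofReal, neg_mul, h1] at h3
  exact Complex.conj_eq_iff_im.1 h3.symm

theorem zeros (hUZt : S_UZt) (hP : S_XtP) (hE : S_XtE) (hNu : S_Nu) (hRF : S_RateF) (hZD : S_ZD) (hGC : S_GCb) (hRH : RHy)
    {γ : ℕ → ℝ} (hγ : EN γ) (j : ℕ) {c : ℝ} (hc : c < 4 * Real.pi) :
    ∃ A : ℝ, ∀ a : ℝ, A ≤ a → ∃ n : ℕ, ∀ (ν : ℕ∞) (f : ℝ → ℂ), (n : ℕ∞) ≤ ν → Xt a ν f →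
      ∃ x : ℝ, |x - γ j| ≤ Real.exp (-(c * Real.exp (2 * a))) ∧ Y23.TT f (I * x) = 0 := by
  have gpos : ∀ j, 0 < γ j := fun j => lt_of_lt_of_le hγ.pos (hγ.mono.monotone (Nat.zero_le j))
  have hg : StrictMono fun j => γ j ^ 2 := fun i j hij => pow_lt_pow_left₀ (hγ.mono hij) (gpos i).le two_ne_zero
  have hg0 : 0 < (fun j => γ j ^ 2) 0 := pow_pos (gpos 0) 2
  have hs : Summable fun j => 1 / (fun j => γ j ^ 2) j := by
    have h1 : Summable fun j => 1 / (γ j ^ 2) ^ (7 / 8 : ℝ) := by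
      refine Summable.of_nonneg_of_le (fun j => ?_) (fun j => ?_) hγ.sum
      · exact div_nonneg zero_le_one (Real.rpow_nonneg (sq_nonneg _) _)
      · refine div_le_div_of_nonneg_right ?_ (Real.rpow_nonneg (sq_nonneg _) _)
        exact_mod_cast hγ.m1 j
    refine Summable.of_nonneg_of_le (fun j => ?_) (fun j => ?_) (h1.mul_left ((γ 0 ^ 2) ^ (-(1 / 8) : ℝ)))
    · simp only
      have := gpos j
      positivity
    · have hx : 0 < γ j ^ 2 := pow_pos (gpos j) 2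
      have e : 1 / (γ j ^ 2) = (γ j ^ 2) ^ (-(1 / 8) : ℝ) * (1 / (γ j ^ 2) ^ (7 / 8 : ℝ)) := by
        rw [one_div ((γ j ^ 2) ^ (7 / 8 : ℝ)), ← Real.rpow_neg hx.le, ← Real.rpow_add hx, show (-(1 / 8) + -(7 / 8) : ℝ) = -1 by norm_num,
          Real.rpow_neg_one, one_div]
      simp only
      rw [e]
      refine mul_le_mul_of_nonneg_right ?_ (div_nonneg zero_le_one (Real.rpow_nonneg hx.le _))
      refine Real.rpow_le_rpow_of_nonpos hg0 (hg.monotone (Nat.zero_le j)) (by norm_num)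
  obtain ⟨hd, h00, hz, hdz, -, -⟩ := hGC (fun j => γ j ^ 2) hg hg0 hs
  have hG0 : (fun z => GC (fun j => γ j ^ 2) (z ^ 2)) (γ j : ℂ) = 0 := by
    simp only
    rw [hz]
    exact ⟨j, by push_cast; rfl⟩
  have hG1 : deriv (fun z : ℂ => GC (fun j => γ j ^ 2) (z ^ 2)) (γ j : ℂ) ≠ 0 := by
    have h1 : HasDerivAt (fun z : ℂ => z ^ 2) (2 * (γ j : ℂ)) (γ j : ℂ) := by
      simpa using hasDerivAt_pow 2 (γ j : ℂ)
    have h2 : HasDerivAt (GC fun j => γ j ^ 2) (deriv (GC fun j => γ j ^ 2) ((γ j : ℂ) ^ 2)) ((γ j : ℂ) ^ 2) :=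
      (hd ((γ j : ℂ) ^ 2)).hasDerivAt
    have h3 : HasDerivAt (fun z : ℂ => GC (fun j => γ j ^ 2) (z ^ 2))
        (deriv (GC fun j => γ j ^ 2) ((γ j : ℂ) ^ 2) * (2 * (γ j : ℂ))) (γ j : ℂ) :=
      HasDerivAt.comp (h₂ := GC fun j => γ j ^ 2) (h := fun z : ℂ => z ^ 2) (γ j : ℂ) h2 h1
    rw [h3.deriv]
    refine mul_ne_zero ?_ (mul_ne_zero two_ne_zero (by exact_mod_cast (gpos j).ne'))
    have := hdz j
    push_cast at this
    exact this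
  obtain ⟨C, r, hC, hr, h⟩ := hZD Fx _ _ (γ j) (conv hUZt hP hRH hγ)
    (ev_Fx.2 ⟨0, 1, fun i hi => (Y23.differentiable_TT hi.2.2.1.1).comp (by fun_prop)⟩)
    (ev_Fx.2 ⟨0, 1, fun i hi x => hi.2.2.real hP hRH (lt_of_lt_of_le one_pos hi.1) x⟩) hG0 hG1
  obtain ⟨K, A, h⟩ := ev_Fx.1 h
  set c' : ℝ := (max c 0 + 4 * Real.pi) / 2 with hc'
  have hpi := Real.pi_pos
  have hm : max c 0 < 4 * Real.pi := max_lt hc (by positivity)
  have hc1 : c' < 4 * Real.pi := by rw [hc']; linarith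
  have hc2 : max c 0 < c' := by rw [hc']; linarith
  have hc2' : c < c' := (le_max_left _ _).trans_lt hc2
  have hc0 : 0 < c' := (le_max_right c 0).trans_lt hc2
  have hX : Tendsto (fun a : ℝ => Real.exp (2 * a)) atTop atTop :=
    Real.tendsto_exp_atTop.comp (tendsto_id.const_mul_atTop two_pos)
  have hz1 : Tendsto (fun a : ℝ => 2 * Real.exp (-(c' * Real.exp (2 * a)))) atTop (𝓝 (2 * 0)) := by
    refine Tendsto.const_mul 2 ?_
    refine Real.tendsto_exp_atBot.comp ?_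
    exact tendsto_neg_atTop_atBot.comp (hX.const_mul_atTop hc0)
  have hz2 : Tendsto (fun a : ℝ => C * (2 * Real.exp (-((c' - c) * Real.exp (2 * a))))) atTop (𝓝 (C * (2 * 0))) := by
    refine Tendsto.const_mul C (Tendsto.const_mul 2 ?_)
    refine Real.tendsto_exp_atBot.comp ?_
    exact tendsto_neg_atTop_atBot.comp (hX.const_mul_atTop (by linarith))
  rw [mul_zero] at hz1
  rw [mul_zero, mul_zero] at hz2
  obtain ⟨A', hA'⟩ := eventually_atTop.1 ((hRF hRH (γ j) (gpos j).ne' ((hγ.zer _).2 ⟨j, Or.inl rfl⟩) c' hc1).and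
    ((hz1.eventually (gt_mem_nhds hr)).and (hz2.eventually (gt_mem_nhds one_pos))))
  refine ⟨max (max A A') 1, fun a ha => ?_⟩
  have haA : A ≤ a := (le_max_left _ _).trans ((le_max_left _ _).trans ha)
  have haA' : A' ≤ a := (le_max_right _ _).trans ((le_max_left _ _).trans ha)
  have ha0 : 0 < a := lt_of_lt_of_le one_pos ((le_max_right _ _).trans ha)
  obtain ⟨h1, h2, h3⟩ := hA' a haA'
  obtain ⟨F, hF⟩ := hE hRH a ⊤ ha0
  obtain ⟨n, hn⟩ := hNu hRH a ha0 ‖(I * (γ j : ℂ))‖ (Real.exp (-(c' * Real.exp (2 * a)))) (Real.exp_pos _)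
  refine ⟨max n ⌈K * a ^ 2⌉₊, fun ν f hν hf => ?_⟩
  have hν1 : (n : ℕ∞) ≤ ν := le_trans (by exact_mod_cast le_max_left _ _) hν
  have hν2 : Big K a ν := le_trans (by exact_mod_cast le_max_right _ _) hν
  have h4 := (hn ν f F hν1 hf hF).2 (I * (γ j : ℂ)) le_rfl
  have h5 := h1 F hF
  have h6 : ‖Y23.TT f (I * (γ j : ℂ))‖ ≤ 2 * Real.exp (-(c' * Real.exp (2 * a))) := by
    have h7 : Y23.TT f (I * (γ j : ℂ)) = (Y23.TT f (I * (γ j : ℂ)) - Y23.TT F (I * (γ j : ℂ))) + Y23.TT F (I * (γ j : ℂ)) := by ring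
    rw [h7]
    refine (norm_add_le _ _).trans ?_
    linarith
  obtain ⟨x, hx1, hx2⟩ := h (a, ν, f) ⟨haA, hν2, hf⟩ _ h2.le h6
  refine ⟨x, hx1.trans ?_, hx2⟩
  have e : Real.exp (-(c' * Real.exp (2 * a))) = Real.exp (-((c' - c) * Real.exp (2 * a))) * Real.exp (-(c * Real.exp (2 * a))) := by
    rw [← Real.exp_add]
    congr 1
    ring
  rw [e]
  calc C * (2 * (Real.exp (-((c' - c) * Real.exp (2 * a))) * Real.exp (-(c * Real.exp (2 * a))))) =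
      (C * (2 * Real.exp (-((c' - c) * Real.exp (2 * a))))) * Real.exp (-(c * Real.exp (2 * a))) := by ring
    _ ≤ 1 * Real.exp (-(c * Real.exp (2 * a))) := mul_le_mul_of_nonneg_right h3.le (Real.exp_pos _).le
    _ = _ := one_mul _

end Pool.Agent.Q240.EX
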