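import Pool.Agent.Q240.EX.Stm
import Pool.Agent.Q240.CD.All

set_option autoImplicit false

/-!
# Project EX: `S_K1`, `S_Del2`
-/

open Polynomial Filter Topology Finset MeasureTheory
open Pool.Agent.Q240.CD

namespace Pool.Agent.Q240.EX

lemma ex_ne {g M : ℕ → ℝ} {n : ℕ} {t : ℝ} {q : ℝ[X]} (h : Ex g M n t q) : q ≠ 0 := by
  rintro rfl
  have := h.2.1
  simp at this

lemma ex_pos {g M : ℕ → ℝ} {n : ℕ} (hPM : PM g M n) {t : ℝ} {q : ℝ[X]} (h : Ex g M n t q) : 0 < Lam g M (q * q) :=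
  hPM.dfn q h.1 (ex_ne h)

theorem k1 (hK : S_Kern) (hN : S_Neg1) : S_K1 := by
  intro g M n hPM hs q0 hq0 q z hq
  have hδ := ex_pos hPM hq0
  have h1 : ∀ p : ℝ[X], p.natDegree ≤ n → p.eval (-‖z‖) ^ 2 ≤
      (Real.exp (2 * ‖z‖ * ∑' j, 1 / g j) / Lam g M (q0 * q0)) * Lam g M (p * p) := by
    intro p hp
    have h2 := hN g M n hPM hs q0 hq0 p ‖z‖ hp (norm_nonneg z)
    rw [div_mul_eq_mul_div, le_div_iff₀ hδ]
    exact h2
  have h3 := hK g M n hPM _ ‖z‖ (norm_nonneg z) h1 q z hq le_rfl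
  rw [div_mul_eq_mul_div, le_div_iff₀ hδ] at h3
  exact h3

theorem del2 : S_Del2 := by
  intro ι l g N M hF q0 hq0
  rw [tendsto_order]
  constructor
  · intro x hx
    filter_upwards [hF.pm, hq0] with i h1 h2
    exact hx.trans (ex_pos h1 h2)
  · intro x hx
    filter_upwards [hF.pm, hq0, hF.del (x / 2) (by linarith)] with i h1 h2 h3
    obtain ⟨q, h4, h5, h6⟩ := h3
    have h7 := Pool.Agent.Q280.CD2.ex_min h1 h2 h4 h5
    linarith

end Pool.Agent.Q240.EX
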