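import Pool.Agent.Q240.EX.Def

set_option autoImplicit false

/-!
# Project EX: statements of the lemma jobs, part 1 (real polynomials and point masses, no zeta function)

Every statement is a `def S_xxx : Prop`; prove `theorem xxx : S_xxx` in a file of your own (the hypotheses `h1 : S_yyy` may be used).
`Lam g M p = ∑' j, M j * p.eval (g j)`; in the setting `PM g M n` it converges absolutely for `natDegree p ≤ 2 n`. Elementary facts:
`Pool.Agent.Q280.CD2.Ext` (`summable_eval`, `lam_add`, `deg_mul`, ...), `Pool.Agent.Q16.CD.Gap` (`PM.gpos`, `g_top`, `ej`, `gap_core`),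
`Pool.Agent.Q16.CD.Uni` (`split_eval`, `Lp_split`). Proved and free to cite: `Pool.Agent.Q240.CD.a_ext : S_Ext`, `a_zer : S_Zer`
(in `Pool.Agent.Q240.CD.All`).
-/

open Polynomial Filter Topology Finset MeasureTheory
open Pool.Agent.Q240.CD

namespace Pool.Agent.Q240.EX

/-- **Kern**: a bound for the evaluation at the negative point `-τ` is a bound for the evaluation on the disc of radius `τ`.
Proof. Orthonormal polynomials: by induction (Gram, Schmidt, `dfn`) there are real polynomials `p 0, ..., p n` with `natDegree (p l) = l` and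
`Lam (p l * p m) = 1` if `l = m`, `0` otherwise; every `q` of degree `≤ n` is `∑ a l p l`, `a l = Lam (q * p l)`, and `Lam (q * q) = ∑ (a l)^2`.
All zeros of `p l` are real and positive: if `p l = (X - c) T` with `c ≤ 0` real, then `0 = Lam (p l * T) = ∑' M j (g j - c) T(g j)^2`, a sum
of nonnegative terms, so `M j T(g j)^2 = 0` for all `j`, `Lam (T * T) = 0`, `T = 0`, a contradiction; if `p l = ((X - a)^2 + b^2) T`, `b ≠ 0`
(a zero which is not real), `0 = Lam (p l * T) = ∑' M j ((g j - a)^2 + b^2) T(g j)^2`, the same contradiction. So for `‖z‖ ≤ τ`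
`|p l (z)| = |A| ∏ |z - c| ≤ |A| ∏ (τ + c) = |p l (-τ)|`. With `K = ∑ p l (-τ)^2` and `q = ∑ p l (-τ) p l`: `q(-τ) = K = Lam (q * q)`, so the
hypothesis gives `K^2 ≤ C K`, `K ≤ C` (`K > 0`, as `p 0 ≠ 0` is constant). Finally, by Cauchy and Schwarz, for every `q`
`|q(z)|^2 ≤ ∑ (a l)^2 ∑ |p l (z)|^2 ≤ Lam (q * q) K`. -/
def S_Kern : Prop := ∀ (g M : ℕ → ℝ) (n : ℕ), PM g M n → ∀ C τ : ℝ, 0 ≤ τ →
  (∀ q : ℝ[X], q.natDegree ≤ n → q.eval (-τ) ^ 2 ≤ C * Lam g M (q * q)) →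
  ∀ (q : ℝ[X]) (z : ℂ), q.natDegree ≤ n → ‖z‖ ≤ τ → ‖aeval z q‖ ^ 2 ≤ C * Lam g M (q * q)

/-- **Neg1**: the evaluation at the negative points. Uses `S_Ext`, `S_Zer` (both proved).
Proof. Let `δ = Lam (q0 * q0)`. For every `p` with `natDegree p ≤ n`: `p(0)^2 δ ≤ Lam (p * p)` (`p = p(0) q0 + s`, `s(0) = 0`). Let `k` be
extremal at `t = -τ` (`S_Ext`), so `q(-τ)^2 Lam (k * k) ≤ Lam (q * q)` for `natDegree q ≤ n`. We may assume `τ > 0` or use the same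
argument. Put `g' j = g j + τ`, `k' = k.comp (X - C τ)`: `PM g' M n` holds (`M j (1 + g j + τ)^(2n) ≤ (1+τ)^(2n) M j (1 + g j)^(2n)`), and
`Lam g' M p = Lam g M (p.comp (X + C τ))`, so `k'` is extremal at `0` for `g'`. By `S_Zer` (last part, `t = 0`) its zeros are real,
`c j > g' j = g j + τ` for `j < d`; as `k'(0) = 1`: `k(0) = k'(τ) = ∏_{j<d} (1 - τ / c j) > 0` and
`1 / k(0) = ∏ c j / (c j - τ) = ∏ (1 + τ / (c j - τ)) ≤ ∏ (1 + τ / g j) ≤ exp (τ ∑' 1 / g j)`. So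
`q(-τ)^2 δ ≤ q(-τ)^2 Lam (k * k) / k(0)^2 ≤ exp (2 τ ∑' 1 / g j) Lam (q * q)`. -/
def S_Neg1 : Prop := ∀ (g M : ℕ → ℝ) (n : ℕ), PM g M n → (Summable fun j => 1 / g j) → ∀ q0 : ℝ[X], Ex g M n 0 q0 →
  ∀ (q : ℝ[X]) (τ : ℝ), q.natDegree ≤ n → 0 ≤ τ →
    q.eval (-τ) ^ 2 * Lam g M (q0 * q0) ≤ Real.exp (2 * τ * ∑' j, 1 / g j) * Lam g M (q * q)

/-- the bound for the evaluation at every complex point (from `S_Kern` and `S_Neg1`) -/
def S_K1 : Prop := ∀ (g M : ℕ → ℝ) (n : ℕ), PM g M n → (Summable fun j => 1 / g j) → ∀ q0 : ℝ[X], Ex g M n 0 q0 →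
  ∀ (q : ℝ[X]) (z : ℂ), q.natDegree ≤ n →
    ‖aeval z q‖ ^ 2 * Lam g M (q0 * q0) ≤ Real.exp (2 * ‖z‖ * ∑' j, 1 / g j) * Lam g M (q * q)

/-- the smallest value tends to `0` (immediate from `Fam2.del`) -/
def S_Del2 : Prop := ∀ {ι : Type} (l : Filter ι) (g : ℕ → ℝ) (N : ι → ℕ) (M : ι → ℕ → ℝ), Fam2 l g N M →
  ∀ q0 : ι → ℝ[X], (∀ᶠ i in l, Ex g (M i) (N i) 0 (q0 i)) →
    Tendsto (fun i => Lam g (M i) (q0 i * q0 i)) l (𝓝 0)

/-- **Q0c**: the extremal polynomials converge to the product on the whole plane. Uses `S_Zer` (proved) and `S_Del2`; compare with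
`Pool.Agent.Q225.CD.Q0` (`q0conv`, the same induction for the zeros).
Proof. `M i k * q0 i (g k)^2 ≤ Lam (q0 i * q0 i) → 0`, and `M i k ≥ c k > 0` eventually (`Fam2.low`), so `q0 i (g k) → 0` for each `k`. By `S_Zer`
(`t = 0`) `q0 i = ∏_{j < d i} (1 - X / c i j)` with `c i j > g j`. Induction on `k`: eventually `k < d i`, and `c i k → g k`. Indeed the factors
`1 - g k / c i j`, `j > k`, are at least `1 - g k / g j`, so their product is at least `∏'_{j > k} (1 - g k / g j) > 0` (or `1` if they are missing);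
the factors with `j < k` tend to `1 - g k / g j ≠ 0`; as the whole product tends to `0`, the factor `1 - g k / c i k` is present and tends to `0`.
Then for `‖z‖ ≤ R`: compare the finite products over `j < J` (uniform convergence) and use
`|∏_{j ≥ J} (1 - z / c i j) - 1| ≤ exp (R ∑_{j ≥ J} 1 / g j) - 1`, the same for `g`. -/
def S_Q0c : Prop := ∀ {ι : Type} (l : Filter ι) (g : ℕ → ℝ) (N : ι → ℕ) (M : ι → ℕ → ℝ), Fam2 l g N M →
  ∀ q0 : ι → ℝ[X], (∀ᶠ i in l, Ex g (M i) (N i) 0 (q0 i)) →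
    TendstoLocallyUniformly (fun i (z : ℂ) => aeval z (q0 i)) (GC g) l

/-- **Gap2**: relative to the smallest value the form is infinitely large on the polynomials `X h`. Uses `S_K1`, `S_Del2`.
Proof. Let `δ = Lam (q0 i * q0 i)`, `L = Lam (X * h * h) = ∑' M j g j h(g j)^2`, `E = exp (2 T ∑' 1 / g j)`. Choose `J` with `8 E / g J ≤ ε` (note
`g → ∞`, `g_top`); let `c > 0` be a common lower bound for `M i j`, `j < J`, so `h(g j)^2 ≤ L / (c g 0)` for `j < J`. Choose `η > 0` small (see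
below), `e j` and `B` from `Fam2.sep` for `J, j, T, η` (maximum of the `B`), and `h' = h - ∑_{j<J} h(g j) e j`, `natDegree h' + 1 ≤ N i`. Then
`h'(g k) = 0` for `k < J`, and for `k ≥ J`: `h'(g k)^2 ≤ 2 h(g k)^2 + 2 J ∑_{j<J} h(g j)^2 e j (g k)^2`. As `∑_{k ≥ J} M k h(g k)^2 ≤ L / g J` and
`∑_{k ≥ J} M k e j (g k)^2 = Lam (e j * e j) - M j ≤ η`: `Lam (h' * h') ≤ 2 L / g J + 2 J² η L / (c g 0)`. Compare `gap_core` in
`Pool.Agent.Q16.CD.Gap` (there `e j = ej g D j`). By `S_K1` (`PM g (M i) (N i)`) `‖h'(z)‖^2 δ ≤ E Lam (h' * h')`, and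
`‖h(z)‖^2 δ ≤ 2 ‖h'(z)‖^2 δ + 2 δ (J B)^2 L / (c g 0)`, where `δ → 0`. With `η` such that `4 E J² η / (c g 0) ≤ ε / 4` all terms together are
at most `ε L`. -/
def S_Gap2 : Prop := ∀ {ι : Type} (l : Filter ι) (g : ℕ → ℝ) (N : ι → ℕ) (M : ι → ℕ → ℝ), Fam2 l g N M →
  ∀ q0 : ι → ℝ[X], (∀ᶠ i in l, Ex g (M i) (N i) 0 (q0 i)) →
    ∀ T ε : ℝ, 0 < ε → ∀ᶠ i in l, ∀ h : ℝ[X], h.natDegree + 1 ≤ N i → ∀ z : ℂ, ‖z‖ ≤ T →
      ‖aeval z h‖ ^ 2 * Lam g (M i) (q0 i * q0 i) ≤ ε * Lam g (M i) (X * h * h)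

/-- **MainU**: the collapse of the form, for polynomials of degree at most `2 N`. Uses `S_Q0c`, `S_Gap2`.
Proof. `P = q(x²) + x r(x²)` with `natDegree q ≤ N i`, `natDegree r + 1 ≤ N i` (or `r = 0`), `P(0) = q(0)`, and
`Lp P = Lam (q * q) + Lam (X * r * r)` (`Pool.Agent.Q16.CD.Uni`). Write `q = q(0) q0 + X h`, `natDegree h + 1 ≤ N i` (or `h = 0`); orthogonality:
`Lam (q * q) = q(0)^2 δ + Lam (X h * X h)`, and `Lam (X h * X h) = ∑' M j g j^2 h(g j)^2 ≥ g 0 Lam (X * h * h)`. For `‖z‖ ≤ R`, `w = z²`: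
`P(z) - P(0) GC g w = q(0) (q0(w) - GC g w) + w h(w) + z r(w)`, so with `T = R²`
`‖P(z) - P(0) GC g w‖^2 δ ≤ 3 (q(0)^2 δ ‖q0(w) - GC g w‖^2 + T² ‖h(w)‖^2 δ + T ‖r(w)‖^2 δ)
  ≤ 3 (ε₁² Lam (q * q) + T² ε₂ Lam (q * q) / g 0 + T ε₂ Lam (X * r * r))`, where `ε₁` comes from `S_Q0c` (uniformly for `‖w‖ ≤ T`), `ε₂` from
`S_Gap2`. The case `N i = 0` does not occur (`Fam2.sep` for `J = 1` gives `1 ≤ N i`). -/
def S_MainU : Prop := ∀ {ι : Type} (l : Filter ι) (g : ℕ → ℝ) (N : ι → ℕ) (M : ι → ℕ → ℝ), Fam2 l g N M →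
  ∀ q0 : ι → ℝ[X], (∀ᶠ i in l, Ex g (M i) (N i) 0 (q0 i)) →
    ∀ R ε : ℝ, 0 < ε → ∀ᶠ i in l, ∀ P : ℝ[X], P.natDegree ≤ 2 * N i → ∀ z : ℂ, ‖z‖ ≤ R →
      ‖aeval z P - ((P.eval 0 : ℝ) : ℂ) * GC g (z ^ 2)‖ ^ 2 * Lam g (M i) (q0 i * q0 i) ≤ ε * Lp g (M i) P

end Pool.Agent.Q240.EX
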